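import Pool.Agent.H307R3.PC.NonPoly
import Pool.Agent.H307R3.PC.Codim

/-!
# A maximal commutative subalgebra of maximal dimension that is not polynomial

For `g = sl₂ ⊕ sl₂` with the swap, `k = g₀ ⋉ g₁` is the Takiff algebra of `sl₂`; it has the codim-3
property. With `f ∈ g₀`, `h ∈ g₀`, `εf ∈ g₁`, the subalgebra of `S(k)` generated by the two basic
invariants and `(εf)² h, (εf) f h, f² h` is maximal commutative, of maximal dimension, and not
polynomial.
-/

set_option autoImplicit false

universe u

namespace Pool.Agent.Results.MP_26edac_al.NotPolynomial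

open Module Pool.Agent.H307R3.PC Pool.Agent.H307R3.PC.G Pool.Agent.H307R3.PC.Core

variable {F : Type u} [Field F]

/-- the symmetric algebra in coordinates -/
noncomputable def e (F : Type u) [Field F] :
    SymmetricAlgebra F (G F) ≃ₐ[F] MvPolynomial (Fin 6) F :=
  SymmetricAlgebra.equivMvPolynomial bas

/-- the linear form with given coefficients -/
noncomputable def lin (x : G F) : MvPolynomial (Fin 6) F :=
  ∑ i, MvPolynomial.C (x i) * MvPolynomial.X i

lemma e_iota (x : G F) : e F (SymmetricAlgebra.ι F (G F) x) = lin x := by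
  conv_lhs => rw [expand x]
  rw [map_sum, map_sum, lin]
  apply Finset.sum_congr rfl
  intro i _
  rw [map_smul, map_smul, e, SymmetricAlgebra.equivMvPolynomial_ι_apply,
    MvPolynomial.smul_eq_C_mul]

lemma pb_lin (x y : G F) : pb F (lin x) (lin y) = lin (br 0 x y) := by
  have h1 : ∀ z : G F, ∀ i, D F i (lin z) = ∑ j, MvPolynomial.C (z j) * cst F i j := by
    intro z i
    rw [lin, map_sum]
    apply Finset.sum_congr rfl
    intro j _
    rw [D_Cmul, D_X]
  have h2 : pb F (lin x) (lin y) = ∑ i, MvPolynomial.C (x i) * D F i (lin y) := by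
    conv_lhs => rw [lin]
    rw [map_sum, LinearMap.sum_apply]
    apply Finset.sum_congr rfl
    intro i _
    rw [← MvPolynomial.smul_eq_C_mul, map_smul, LinearMap.smul_apply, pb_X,
      MvPolynomial.smul_eq_C_mul]
  rw [h2]
  simp only [h1]
  simp only [Fin.sum_univ_six, lin, cst, Matrix.cons_val, Matrix.cons_val_zero,
    Matrix.cons_val_one, br0, br1, br2, br3, br4, br5, map_add, map_sub, map_mul, map_zero,
    map_ofNat]
  ring

/-- the Lie-Poisson bracket on the symmetric algebra -/
noncomputable def P (F : Type u) [Field F] (a b : SymmetricAlgebra F (G F)) :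
    SymmetricAlgebra F (G F) := (e F).symm (pb F (e F a) (e F b))

lemma P_apply (a b : SymmetricAlgebra F (G F)) : P F a b = (e F).symm (pb F (e F a) (e F b)) := rfl

lemma isLiePoisson [CharZero F] :
    IsLiePoisson (theta (F := F)) (SymmetricAlgebra.ι F (G F)) (P F) where
  gen x y := by
    rw [P_apply, e_iota, e_iota, pb_lin, ← e_iota, AlgEquiv.symm_apply_apply, cbr_eq]
  add a b c := by
    rw [P_apply, P_apply, P_apply, map_add, map_add, LinearMap.add_apply, map_add]
  smul t a b := by
    rw [P_apply, P_apply, map_smul, map_smul, LinearMap.smul_apply, map_smul]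
  skew a b := by
    rw [P_apply, P_apply, pb_skew, map_neg]
  leibniz a b c := by
    rw [P_apply, P_apply, P_apply, map_mul, pb_leibniz, map_add, map_mul, map_mul,
      AlgEquiv.symm_apply_apply, AlgEquiv.symm_apply_apply]

/-- the subalgebra of the symmetric algebra -/
noncomputable def A' (F : Type u) [Field F] : Subalgebra F (SymmetricAlgebra F (G F)) :=
  (A F).map ((e F).symm : MvPolynomial (Fin 6) F →ₐ[F] SymmetricAlgebra F (G F))

lemma mem_A' (x : SymmetricAlgebra F (G F)) : x ∈ A' F ↔ e F x ∈ A F := by
  constructor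
  · rintro ⟨y, hy, rfl⟩
    change e F ((e F).symm y) ∈ A F
    rw [AlgEquiv.apply_symm_apply]
    exact hy
  · intro h
    exact ⟨e F x, h, (e F).symm_apply_apply x⟩

lemma maxComm [CharZero F] [IsAlgClosed F] : MaxComm (P F) (A' F) := by
  refine ⟨?_, ?_⟩
  · intro a ha b hb
    rw [P_apply, commutative _ ((mem_A' a).1 ha) _ ((mem_A' b).1 hb), map_zero]
  · intro B hAB hB
    refine le_antisymm ?_ hAB
    intro b hb
    rw [mem_A']
    apply maximal
    intro x hx
    have h1 : (e F).symm x ∈ A' F := by rw [mem_A', AlgEquiv.apply_symm_apply]; exact hx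
    have h2 := hB _ (hAB h1) b hb
    rw [P_apply, AlgEquiv.apply_symm_apply] at h2
    have h3 := congrArg (e F) h2
    rwa [AlgEquiv.apply_symm_apply, map_zero] at h3

/-- the two subalgebras are isomorphic -/
noncomputable def eA (F : Type u) [Field F] : A F ≃ₐ[F] A' F :=
  (A F).equivMapOfInjective _ (e F).symm.injective

lemma trdeg_A' [CharZero F] [IsAlgClosed F] : Algebra.trdeg F (A' F) = 4 := by
  rw [← (eA F).trdeg_eq, trdeg_A]

lemma not_isPolynomial [CharZero F] : ¬ IsPolynomial (A' F) := by
  intro h
  have h1 := ufd_of_isPolynomial h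
  exact not_ufd ((eA F).symm.toMulEquiv.uniqueFactorizationMonoid h1)

lemma theta_ne [CharZero F] : ∃ x : G F, theta x ≠ x := by
  refine ⟨mk6 0 0 0 1 0 0, fun h => ?_⟩
  have h1 : (-1 : F) = 1 := congrFun h 3
  have h2 : (2 : F) = 0 := by linear_combination -h1
  exact two_ne_zero h2

/-- Over every algebraically closed field `F` of characteristic zero there are a semisimple Lie
algebra `g` and a nontrivial involution `θ` of `g` such that the contraction `k = g₀ ⋉ g₁` has the
codim-3 property, while not every maximal commutative subalgebra of `S(k)` of maximal dimension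
`(dim k + ind k) / 2` is a polynomial algebra. -/
theorem result (F : Type u) [Field F] [IsAlgClosed F] [CharZero F] :
    ∃ (g : Type u) (_ : LieRing g) (_ : LieAlgebra F g) (θ : g →ₗ⁅F⁆ g),
      FiniteDimensional F g ∧ LieAlgebra.IsSemisimple F g ∧
      (∀ x, θ (θ x) = x) ∧ (∃ x, θ x ≠ x) ∧
      CodimProp θ (SymmetricAlgebra.ι F g) 3 ∧ ¬ AllPolynomial θ (SymmetricAlgebra.ι F g) := by
  refine ⟨G F, inferInstance, inferInstance, theta, inferInstance, isSemisimple,
    theta_theta, theta_ne, codimProp, fun h => ?_⟩
  refine not_isPolynomial (h (P F) isLiePoisson (A' F) maxComm ?_)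
  rw [MaxDim, trdeg_A', finrank_G, index_eq]
  norm_num

end Pool.Agent.Results.MP_26edac_al.NotPolynomial
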